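import Mathlib
import Pool.Agent.helper12.OB.SpecA

set_option autoImplicit false

namespace Pool.Agent.OB

open Pool.Agent.helper58.DC Pool.Agent.DI Pool.Agent.GR

open Classical in
theorem ODV_orbit (p : ℕ) (hp : p.Prime) (N X : Type) [Group N] [Finite N] [Fintype X]
    [MulAction N X] (I : AddSubgroup ℂ) (f : X → ℂ) (hf : ∀ (n : N) x, f (n • x) = f x)
    (hI : ∀ x, ∃ w ∈ I, f x = (pp p (MulAction.stabilizer N x) : ℂ) * w) :
    ∃ w ∈ I, ∑ x, f x = (pp p N : ℂ) * w := by
  have : Fact p.Prime := ⟨hp⟩
  have key : ∀ q : MulAction.orbitRel.Quotient N X, ∃ w ∈ I,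
      ∑ x ∈ (Finset.univ : Finset X).filter
        (fun x => (Quotient.mk (MulAction.orbitRel N X) x : MulAction.orbitRel.Quotient N X) = q),
        f x = (pp p N : ℂ) * w := by
    intro q
    induction q using Quotient.inductionOn with
    | h x0 =>
    obtain ⟨w, hw, hfw⟩ := hI x0
    have hset : (Finset.univ : Finset X).filter
        (fun x => (Quotient.mk (MulAction.orbitRel N X) x : MulAction.orbitRel.Quotient N X) =
          Quotient.mk (MulAction.orbitRel N X) x0)
          = (Set.toFinite (MulAction.orbit N x0)).toFinset := by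
      ext x
      rw [Finset.mem_filter, Set.Finite.mem_toFinset]
      constructor
      · rintro ⟨_, h2⟩
        exact Quotient.exact h2
      · intro h
        exact ⟨Finset.mem_univ _, Quotient.sound h⟩
    have hcard : Nat.card (MulAction.orbit N x0) * Nat.card (MulAction.stabilizer N x0) =
        Nat.card N := by
      have h1 := MulAction.index_stabilizer N x0
      rw [← Nat.card_coe_set_eq] at h1
      rw [← h1, mul_comm]
      exact Subgroup.card_mul_index _
    have hN0 : Nat.card N ≠ 0 := Nat.card_pos.ne'
    have ho0 : Nat.card (MulAction.orbit N x0) ≠ 0 := by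
      intro h; rw [h, zero_mul] at hcard; exact hN0 hcard.symm
    have hs0 : Nat.card (MulAction.stabilizer N x0) ≠ 0 := by
      intro h; rw [h, mul_zero] at hcard; exact hN0 hcard.symm
    have hdvd : p ^ padicValNat p (Nat.card (MulAction.orbit N x0)) ∣
        Nat.card (MulAction.orbit N x0) := pow_padicValNat_dvd
    obtain ⟨k, hk⟩ := hdvd
    have hpp : pp p N = p ^ padicValNat p (Nat.card (MulAction.orbit N x0)) *
        pp p (MulAction.stabilizer N x0) := by
      unfold pp
      rw [← pow_add, ← padicValNat.mul ho0 hs0, hcard]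
    refine ⟨k • w, AddSubgroup.nsmul_mem I hw k, ?_⟩
    rw [hset, Finset.sum_congr rfl (g := fun _ => f x0)]
    · rw [Finset.sum_const, nsmul_eq_mul, nsmul_eq_mul, ← Nat.card_eq_card_finite_toFinset, hfw, hpp]
      have h3 : ((Nat.card (MulAction.orbit N x0) : ℕ) : ℂ) =
          ((p ^ padicValNat p (Nat.card (MulAction.orbit N x0)) * k : ℕ) : ℂ) := by
        rw [← hk]
      rw [h3]
      push_cast
      ring
    · intro x hx'
      rw [Set.Finite.mem_toFinset] at hx'
      obtain ⟨g, hg⟩ := hx'
      rw [← hg]
      exact hf g x0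
  choose a ha hsum using key
  have : Finite (MulAction.orbitRel.Quotient N X) := Quotient.finite _
  let _ : Fintype (MulAction.orbitRel.Quotient N X) := Fintype.ofFinite _
  refine ⟨∑ q, a q, AddSubgroup.sum_mem I fun q _ => ha q, ?_⟩
  rw [← Finset.sum_fiberwise (Finset.univ : Finset X)
    (fun x => (Quotient.mk (MulAction.orbitRel N X) x : MulAction.orbitRel.Quotient N X)) f,
    Finset.mul_sum]
  exact Finset.sum_congr rfl fun q _ => hsum q

theorem ODV : ODV_stmt := by
  intro p hp N X _ _ _ a I f hf hI
  let _ : Fintype X := Fintype.ofFinite X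
  let _ : MulAction N X := MulAction.compHom X a
  rw [finsum_eq_sum_of_fintype]
  refine ODV_orbit p hp N X I f hf ?_
  intro x
  exact hI x

end Pool.Agent.OB
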